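import Pool.Graph.R_seed8.W982.TA.Stm

/-!
# Max-min area triangulations: definitions and statements of the geometric part

The instance: `box X Y` is a box of lattice points, `W` a set of special points of its interior.
The point set `SS X Y N W` consists of the points `N p`, `p` in the box, and of the displaced
points `N w + (1, 0)`, `w ∈ W`.  For large `N` it has a triangulation all of whose triangles have
doubled area at least `2 N` if and only if there is a *selection* `Sel`.
-/

set_option autoImplicit false

namespace Pool.Agent.H691.Q2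

open Pool.Agent.W982.TA

/-- the point `N p + (δ, 0)` -/
def sp (N : ℤ) (p : Pt) (δ : ℤ) : Pt := (N * p.1 + δ, N * p.2)

/-- the point set of the instance -/
noncomputable def SS (X Y N : ℤ) (W : Finset Pt) : Finset Pt :=
  (box X Y).image (fun p => sp N p 0) ∪ W.image (fun p => sp N p 1)

/-- there is a triangulation of `S` all of whose triangles have area at least `A` -/
def MaxMinArea (S : Finset Pt) (A : ℚ) : Prop :=
  ∃ T, IsTriangulation S T ∧ ∀ a b c, IsTri S T a b c → A ≤ ((|dt a b c| : ℤ) : ℚ) / 2

/-- a selection: every point `w` of `W` has a primitive vector `f w true` going up by at least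
`2` and a primitive vector `f w false` going down by at least `2`; the segments from `w` to
`w + f w s` stay in the box and do not cross properly -/
structure Sel (X Y : ℤ) (W : Finset Pt) (f : Pt → Bool → Pt) : Prop where
  prim : ∀ w ∈ W, ∀ s, Int.gcd (f w s).1 (f w s).2 = 1
  up : ∀ w ∈ W, 2 ≤ (f w true).2
  down : ∀ w ∈ W, (f w false).2 ≤ -2
  mem : ∀ w ∈ W, ∀ s, w + f w s ∈ box X Y
  disj : ∀ w ∈ W, ∀ s, ∀ w' ∈ W, ∀ s', ¬ PCross w (w + f w s) w' (w' + f w' s')

/-- P1: soundness -/
def TaskP1 : Prop := ∀ (X Y N : ℤ) (W : Finset Pt), 0 < X → 0 < Y → 4 * Y + 8 ≤ N →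
  W ⊆ ibox X Y → MaxMinArea (SS X Y N W) N → ∃ f, Sel X Y W f

/-- P2: completeness -/
def TaskP2 : Prop := ∀ (X Y N : ℤ) (W : Finset Pt) (f : Pt → Bool → Pt), 0 < X → 0 < Y →
  4 * Y + 8 ≤ N → W ⊆ ibox X Y → Sel X Y W f → (∀ w ∈ W, ∀ s, w + f w s ∉ W) →
  MaxMinArea (SS X Y N W) N

end Pool.Agent.H691.Q2
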